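import Pool.Agent.Helper19.RD.Stmts9
import Pool.Agent.Helper19.RD.PL

/-! Project RD8, row VLB: most primes in the range divide `q`. -/

set_option autoImplicit false

namespace Pool.Agent.Helper19.RD

open Finset Pool.Agent.Helper18.RD

theorem vlb_step (x : ℕ) (hx : 1 ≤ x) :
    Real.sqrt ((x : ℝ) + 1) / (((x : ℝ) + 1) * ((x : ℝ) + 2)) ≤
      2 * (1 / Real.sqrt x - 1 / Real.sqrt ((x : ℝ) + 1)) := by
  have hx' : (1 : ℝ) ≤ x := by exact_mod_cast hx
  set a := Real.sqrt x with ha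
  set b := Real.sqrt ((x : ℝ) + 1) with hb
  have ha2 : a ^ 2 = x := Real.sq_sqrt (by linarith)
  have hb2 : b ^ 2 = (x : ℝ) + 1 := Real.sq_sqrt (by linarith)
  have ha0 : 0 < a := Real.sqrt_pos.2 (by linarith)
  have hb0 : 0 < b := Real.sqrt_pos.2 (by linarith)
  have hab : a ≤ b := Real.sqrt_le_sqrt (by linarith)
  have e1 : (x : ℝ) + 1 = b ^ 2 := hb2.symm
  have e2 : (x : ℝ) + 2 = b ^ 2 + 1 := by linarith
  rw [e2, show ((x : ℝ) + 1) = b ^ 2 from e1]
  have e3 : 1 / a - 1 / b = 1 / (a * b * (a + b)) := by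
    field_simp
    nlinarith
  have e4 : b / (b ^ 2 * (b ^ 2 + 1)) = 1 / (b * (b ^ 2 + 1)) := by
    field_simp
  rw [e3, e4, mul_one_div, div_le_div_iff₀ (by positivity) (by positivity)]
  nlinarith [mul_pos ha0 hb0, mul_le_mul_of_nonneg_left hab ha0.le,
    mul_le_mul_of_nonneg_left hab hb0.le]

/-- partial summation -/
theorem vlb_abel (T : ℕ → Prop) [DecidablePred T] (z : ℕ) (hz : 1 ≤ z) (B : ℝ) (hB : 0 ≤ B) :
    ∀ x : ℕ, z ≤ x → (∀ t : ℕ, z ≤ t → t ≤ x →
      (((Icc (z + 1) t).filter T).card : ℝ) ≤ B * Real.sqrt t) →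
    ∑ p ∈ (Icc (z + 1) x).filter T, (1 : ℝ) / p ≤
      (((Icc (z + 1) x).filter T).card : ℝ) / ((x : ℝ) + 1) +
        B * (2 / Real.sqrt z - 2 / Real.sqrt x) := by
  intro x hx
  induction x, hx using Nat.le_induction with
  | base =>
    intro _
    simp
  | succ x hx ih =>
    intro hA
    have h1 := ih fun t h1 h2 => hA t h1 (by omega)
    have hx1 : 1 ≤ x := le_trans hz hx
    have hx1' : (1 : ℝ) ≤ x := by exact_mod_cast hx1
    have e : Icc (z + 1) (x + 1) = insert (x + 1) (Icc (z + 1) x) := by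
      ext i
      simp only [mem_Icc, mem_insert]
      omega
    have hn : x + 1 ∉ (Icc (z + 1) x).filter T := by
      simp
    have h2 := hA (x + 1) (by omega) le_rfl
    have h3 := vlb_step x hx1
    have h4 : ∑ p ∈ (Icc (z + 1) (x + 1)).filter T, (1 : ℝ) / p -
        ∑ p ∈ (Icc (z + 1) x).filter T, (1 : ℝ) / p =
        ((((Icc (z + 1) (x + 1)).filter T).card : ℝ) - (((Icc (z + 1) x).filter T).card : ℝ)) /
          ((x : ℝ) + 1) := by
      rw [e, filter_insert]
      split_ifs with hT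
      · rw [sum_insert hn, card_insert_of_notMem hn]
        push_cast
        ring
      · simp
    set A1 := (((Icc (z + 1) (x + 1)).filter T).card : ℝ) with hA1
    set A0 := (((Icc (z + 1) x).filter T).card : ℝ) with hA0
    push_cast at h2 ⊢
    have hs : 0 ≤ Real.sqrt ((x : ℝ) + 1) := Real.sqrt_nonneg _
    have h5 : A1 / (((x : ℝ) + 1) * ((x : ℝ) + 2)) ≤
        B * (2 * (1 / Real.sqrt x - 1 / Real.sqrt ((x : ℝ) + 1))) := by
      refine le_trans ?_ (mul_le_mul_of_nonneg_left h3 hB)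
      rw [← mul_div_assoc]
      exact div_le_div_of_nonneg_right h2 (by positivity)
    have h6 : A1 / ((x : ℝ) + 1) = A1 / ((x : ℝ) + 1 + 1) + A1 / (((x : ℝ) + 1) * ((x : ℝ) + 2)) := by
      have : (x : ℝ) + 1 + 1 = (x : ℝ) + 2 := by ring
      rw [this]
      field_simp
      ring
    have h7 : (A1 - A0) / ((x : ℝ) + 1) = A1 / ((x : ℝ) + 1) - A0 / ((x : ℝ) + 1) := by ring
    rw [h7] at h4
    have h8 : B * (2 * (1 / Real.sqrt x - 1 / Real.sqrt ((x : ℝ) + 1))) =
        B * (2 / Real.sqrt z - 2 / Real.sqrt ((x : ℝ) + 1)) -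
          B * (2 / Real.sqrt z - 2 / Real.sqrt x) := by ring
    rw [h8] at h5
    linarith

theorem vlb_abel' (T : ℕ → Prop) [DecidablePred T] (z : ℕ) (hz : 1 ≤ z) (B : ℝ) (hB : 0 ≤ B)
    (x : ℕ) (hx : z ≤ x) (hA : ∀ t : ℕ, z ≤ t → t ≤ x →
      (((Icc (z + 1) t).filter T).card : ℝ) ≤ B * Real.sqrt t) :
    ∑ p ∈ (Icc (z + 1) x).filter T, (1 : ℝ) / p ≤ 3 * B / Real.sqrt z := by
  have h1 := vlb_abel T z hz B hB x hx hA
  have h2 := hA x hx le_rfl
  have hz' : (1 : ℝ) ≤ z := by exact_mod_cast hz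
  have hx' : (z : ℝ) ≤ x := by exact_mod_cast hx
  have hsz : 0 < Real.sqrt z := Real.sqrt_pos.2 (by linarith)
  have hsx : 0 < Real.sqrt x := Real.sqrt_pos.2 (by linarith)
  have hs : Real.sqrt z ≤ Real.sqrt x := Real.sqrt_le_sqrt hx'
  have hx2 : Real.sqrt x * Real.sqrt x = x := Real.mul_self_sqrt (by linarith)
  have h3 : (((Icc (z + 1) x).filter T).card : ℝ) / ((x : ℝ) + 1) ≤ B / Real.sqrt z := by
    rw [div_le_div_iff₀ (by linarith) hsz]
    calc (((Icc (z + 1) x).filter T).card : ℝ) * Real.sqrt z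
        ≤ (B * Real.sqrt x) * Real.sqrt x :=
          mul_le_mul h2 hs hsz.le (by positivity)
      _ = B * x := by rw [mul_assoc, hx2]
      _ ≤ B * ((x : ℝ) + 1) := mul_le_mul_of_nonneg_left (by linarith) hB
  have h4 : B * (2 / Real.sqrt z - 2 / Real.sqrt x) ≤ 2 * B / Real.sqrt z := by
    have : 0 ≤ 2 / Real.sqrt x := by positivity
    calc B * (2 / Real.sqrt z - 2 / Real.sqrt x) ≤ B * (2 / Real.sqrt z) :=
          mul_le_mul_of_nonneg_left (by linarith) hB
      _ = 2 * B / Real.sqrt z := by ring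
  have h5 : 3 * B / Real.sqrt z = B / Real.sqrt z + 2 * B / Real.sqrt z := by ring
  rw [h5]
  linarith

theorem vlb_num (H W sL z x sx P M A : ℝ) (hH1 : 1 ≤ H) (hW1 : 1 ≤ W) (hW4 : W ^ 4 = z)
    (h12 : 12 * H ≤ W) (hxz2 : z ^ 2 ≤ x) (hsL0 : 0 ≤ sL) (hsL : sL ≤ W) (hsx0 : 0 ≤ sx)
    (hsx : sx * sx = x) (hzs : z ≤ sx) (h6 : x ≤ P * H) (hcov : P ≤ 1 + (M + z) + A)
    (hA : A ≤ sL * sx) : 1 / 2 * x ≤ M * H := by
  have hH0 : 0 ≤ H := by linarith
  have hW0 : 0 ≤ W := by linarith
  have hWz : W ≤ z := by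
    have := pow_le_pow_right₀ hW1 (show 1 ≤ 4 by norm_num)
    rwa [pow_one, hW4] at this
  have hWWz : W * W ≤ z := by
    have := pow_le_pow_right₀ hW1 (show 2 ≤ 4 by norm_num)
    rwa [pow_two, hW4] at this
  have hz12 : 12 * H ≤ z := by linarith
  have hz0 : 0 ≤ z := by linarith
  have h1 : z * (12 * H) ≤ z * z := mul_le_mul_of_nonneg_left hz12 hz0
  have h2 : 12 * z ≤ z * z := mul_le_mul_of_nonneg_right (by linarith) hz0
  have h3 : z * z ≤ x := by rwa [pow_two] at hxz2
  have h4 : sL * (12 * H) ≤ W * W := mul_le_mul hsL h12 (by linarith) hW0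
  have h5 : sL * (12 * H) * sx ≤ sx * sx :=
    mul_le_mul_of_nonneg_right (by linarith) hsx0
  have h7 : A * H ≤ sL * sx * H := mul_le_mul_of_nonneg_right hA hH0
  have h8 : sL * (12 * H) * sx = 12 * (sL * sx * H) := by ring
  have h9 : P * H ≤ (1 + (M + z) + A) * H := mul_le_mul_of_nonneg_right hcov hH0
  have h10 : (1 + (M + z) + A) * H = H + M * H + z * H + A * H := by ring
  have h11 : z * (12 * H) = 12 * (z * H) := by ring
  linarith

theorem st_VLB (hNPB : ST_NPB) (hPAR : ST_PAR) : ST_VLB := by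
  intro ε hε
  obtain ⟨C, κ, hC, hκ, hnpb⟩ := hNPB
  set κ' := max κ 1 with hκ'
  have hκ1 : (1 : ℝ) ≤ κ' := le_max_right _ _
  have hκ2 : κ ≤ κ' := le_max_left _ _
  obtain ⟨N0, hpar⟩ := hPAR (9 * C + 12) κ' ε (by linarith) (by linarith) hε
  refine ⟨1 / 2, N0, by norm_num, ?_⟩
  intro N q a hN hq hcop hS
  obtain ⟨hN1, -, hz2, hAx, hzx, hlog, -, -, -, hzA, -, -, hxN, hNA, -⟩ := hpar N hN
  set z := zN N with hzdef
  set x := xN N with hxdef
  set H := 1 + Real.log N with hH
  have hNr : (1 : ℝ) ≤ N := by exact_mod_cast hN1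
  have hlogN : 0 ≤ Real.log N := Real.log_nonneg hNr
  have hH1 : 1 ≤ H := by linarith
  have hHκ : H ^ κ ≤ H ^ κ' := Real.rpow_le_rpow_of_exponent_le hH1 hκ2
  have hHκ1 : H ≤ H ^ κ' := by
    calc H = H ^ (1 : ℝ) := (Real.rpow_one H).symm
      _ ≤ H ^ κ' := Real.rpow_le_rpow_of_exponent_le hH1 hκ1
  have hHκ0 : 0 < H ^ κ := Real.rpow_pos_of_pos (by linarith) _
  set L := C * H ^ κ with hL
  have hL0 : 0 < L := mul_pos hC hHκ0
  set W := (z : ℝ) ^ (1 / 4 : ℝ) with hW
  have hzr : (2 : ℝ) ≤ z := by exact_mod_cast hz2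
  have hxr : (z : ℝ) ≤ x := by exact_mod_cast hzx
  have hW1 : 1 ≤ W := Real.one_le_rpow (by linarith) (by norm_num)
  have hW4 : W ^ 4 = z := by
    rw [hW, ← Real.rpow_natCast, ← Real.rpow_mul (by linarith)]
    norm_num
  have hWs : Real.sqrt z = W ^ 2 := by
    rw [← hW4, show W ^ 4 = (W ^ 2) ^ 2 by ring]
    exact Real.sqrt_sq (by positivity)
  have hLW : 9 * L + 12 * H ≤ W := by
    refine le_trans ?_ hzA
    have h1 : C * H ^ κ ≤ C * H ^ κ' := mul_le_mul_of_nonneg_left hHκ hC.le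
    have h2 : (9 * C + 12) * H ^ κ' = 9 * (C * H ^ κ') + 12 * H ^ κ' := by ring
    rw [h2, hL]
    linarith
  -- the number of primes not dividing `q`
  have hx1 : (1 : ℝ) ≤ x := by linarith
  have hxs : (x : ℝ) ≤ Real.sqrt N := by
    refine le_trans hxN ?_
    rw [Real.sqrt_eq_rpow]
    exact Real.rpow_le_rpow_of_exponent_le hNr (by norm_num)
  have hNP : ∀ t : ℕ, 1 ≤ t → t ≤ x → ((NP q t).card : ℝ) ≤ Real.sqrt L * Real.sqrt t := by
    intro t ht1 htx
    have htr : (t : ℝ) ≤ x := by exact_mod_cast htx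
    have h1 : C * H ^ κ * (Real.sqrt N + t) ≤ (SS N q a).card := by
      refine le_trans ?_ hS
      have h2 : C * H ^ κ * (Real.sqrt N + t) ≤ (2 * L) * Real.sqrt N := by
        rw [← hL]
        have h21 : L * (Real.sqrt N + t) ≤ L * (Real.sqrt N + Real.sqrt N) :=
          mul_le_mul_of_nonneg_left (by linarith) hL0.le
        have h22 : L * (Real.sqrt N + Real.sqrt N) = (2 * L) * Real.sqrt N := by ring
        linarith
      have h3 : 2 * L ≤ (N : ℝ) ^ ε := by
        refine le_trans ?_ hNA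
        have h4 : L ≤ C * H ^ κ' := by
          rw [hL]
          exact mul_le_mul_of_nonneg_left hHκ hC.le
        have h41 : (9 * C + 12) * H ^ κ' = 9 * (C * H ^ κ') + 12 * H ^ κ' := by ring
        have h42 : 0 ≤ C * H ^ κ' := by linarith
        have h43 : 0 ≤ H ^ κ' := by linarith
        rw [h41]
        linarith
      have h5 : (N : ℝ) ^ (1 / 2 + ε) = (N : ℝ) ^ ε * Real.sqrt N := by
        rw [Real.rpow_add (by linarith), Real.sqrt_eq_rpow, mul_comm]
      rw [h5]
      exact le_trans h2 (mul_le_mul_of_nonneg_right h3 (Real.sqrt_nonneg _))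
    have h2 := hnpb N q a t hN1 hq ht1 hcop h1
    rw [← Real.sqrt_mul hL0.le]
    exact Real.le_sqrt_of_sq_le h2
  have hsL : 3 * Real.sqrt L ≤ W := by
    have h1 : Real.sqrt L ≤ W / 3 := by
      rw [Real.sqrt_le_left (by positivity)]
      have h11 : W * 1 ≤ W * W := mul_le_mul_of_nonneg_left hW1 (by linarith)
      have h12 : (W / 3) ^ 2 = W * W / 9 := by ring
      rw [h12]
      linarith
    linarith
  -- third part
  have h3 : ∑ p ∈ (Icc (z + 1) x).filter (fun p => p.Prime ∧ ¬ p ∣ q), (1 : ℝ) / p ≤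
      (z : ℝ) ^ (-(1 / 4) : ℝ) := by
    have h1 := vlb_abel' (fun p => p.Prime ∧ ¬ p ∣ q) z (by omega) (Real.sqrt L)
      (Real.sqrt_nonneg _) x hzx (fun t ht1 ht2 => by
        refine le_trans ?_ (hNP t (by omega) ht2)
        have h2 : (Icc (z + 1) t).filter (fun p => p.Prime ∧ ¬ p ∣ q) ⊆ NP q t := by
          intro p hp
          simp only [mem_filter, mem_Icc] at hp
          simp only [NP, mem_filter, mem_Icc]
          refine ⟨⟨by omega, hp.1.2⟩, hp.2.1, by omega, hp.2.2⟩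
        exact_mod_cast card_le_card h2)
    refine le_trans h1 ?_
    rw [Real.rpow_neg (by linarith), ← hW, hWs, inv_eq_one_div,
      div_le_div_iff₀ (by positivity) (by positivity)]
    have h4 := mul_le_mul_of_nonneg_right hsL (by linarith : (0 : ℝ) ≤ W)
    calc 3 * Real.sqrt L * W ≤ W * W := h4
      _ = 1 * W ^ 2 := by ring
  have hlogz : 0 < Real.log z := Real.log_pos (by linarith)
  have hlog2 : (1 / 2 : ℝ) ≤ Real.log z := by
    have h1 : Real.log 2 ≤ Real.log z := Real.log_le_log (by norm_num) hzr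
    have h2 := Real.log_two_gt_d9
    linarith
  have hxz2 : (z : ℝ) ^ 2 ≤ x := by
    have h1 : Real.log ((z : ℝ) ^ 2) ≤ Real.log x := by
      rw [Real.log_pow]
      push_cast
      have h11 : (1 / 2 : ℝ) * Real.log z ≤ Real.log z * Real.log z :=
        mul_le_mul_of_nonneg_right hlog2 hlogz.le
      have h12 : 40 * Real.log z ^ 2 = 40 * (Real.log z * Real.log z) := by ring
      linarith
    exact (Real.log_le_log_iff (by positivity) (by linarith)).1 h1
  have hlogx : 10 * Real.log x ≤ Real.log N := by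
    have h1 := Real.log_le_log (by linarith) hxN
    rw [Real.log_rpow (by linarith)] at h1
    linarith
  have hxpos : (0 : ℝ) < x := by linarith
  refine ⟨?_, ?_, h3⟩
  · -- lower bound
    have hx3 : 3 ≤ x := by
      have : (4 : ℝ) ≤ x := by
        have h11 : (2 : ℝ) * 2 ≤ z * z := mul_le_mul hzr hzr (by norm_num) (by linarith)
        have h12 : (z : ℝ) ^ 2 = z * z := by ring
        linarith
      have h4 : 4 ≤ x := by exact_mod_cast this
      omega
    have hcov := pl_cover q x hq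
    have hcov' : (Nat.primeCounting x : ℝ) ≤ 1 + (PP q x).card + (NP q x).card := by
      have : Nat.primeCounting x ≤ 1 + (PP q x).card + (NP q x).card := hcov
      exact_mod_cast this
    have hPP : ((PP q x).card : ℝ) ≤ (UN N q).card + z := by
      have h1 : PP q x ⊆ UN N q ∪ Icc 1 z := by
        intro p hp
        simp only [PP, mem_filter] at hp
        simp only [UN, mem_union, mem_filter, mem_Icc]
        rcases Nat.lt_or_ge z p with h | h
        · exact Or.inl ⟨hp.1, h, hp.2⟩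
        · refine Or.inr ⟨?_, h⟩
          have : p ∈ q.primeFactors := mem_of_mem_erase hp.1
          exact (Nat.prime_of_mem_primeFactors this).one_lt.le
      have h2 := (card_le_card h1).trans (card_union_le _ _)
      rw [Nat.card_Icc, Nat.add_sub_cancel] at h2
      exact_mod_cast h2
    have hpi := pl_pi x hx3
    have hNPx := hNP x (by omega) le_rfl
    have hVV : ((UN N q).card : ℝ) / x ≤ VV (UN N q) := by
      rw [VV, div_eq_mul_one_div, ← nsmul_eq_mul]
      refine card_nsmul_le_sum _ _ _ fun p hp => ?_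
      simp only [UN, mem_filter] at hp
      have hp0 : (0 : ℝ) < p := by
        have : 0 < p := by omega
        exact_mod_cast this
      have hp1 : (p : ℝ) ≤ x := by exact_mod_cast hp.2.2
      exact one_div_le_one_div_of_le hp0 hp1
    refine le_trans ?_ hVV
    rw [div_le_div_iff₀ (by linarith) hxpos]
    -- M >= pi - 1 - z - NP
    have hlx : 0 < Real.log x := Real.log_pos (by linarith)
    have h5 : (x : ℝ) / H ≤ Nat.primeCounting x := by
      refine le_trans ?_ hpi
      exact div_le_div_of_nonneg_left hxpos.le (by positivity) (by linarith)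
    have h6 : (x : ℝ) ≤ Nat.primeCounting x * H := by
      rwa [div_le_iff₀ (by linarith)] at h5
    have hsx : Real.sqrt x * Real.sqrt x = x := Real.mul_self_sqrt hxpos.le
    have hsxz : (z : ℝ) ≤ Real.sqrt x := Real.le_sqrt_of_sq_le hxz2
    exact vlb_num H W (Real.sqrt L) z x (Real.sqrt x) (Nat.primeCounting x) (UN N q).card
      (NP q x).card hH1 hW1 hW4 (by linarith) hxz2 (Real.sqrt_nonneg _)
      (by linarith [Real.sqrt_nonneg L]) (Real.sqrt_nonneg _) hsx hsxz h6 (by linarith) hNPx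
  · -- upper bound
    have h1 : VV (UN N q) ≤ ∑ n ∈ Icc 1 x, (1 : ℝ) / n := by
      rw [VV]
      refine sum_le_sum_of_subset_of_nonneg ?_ fun i _ _ => by positivity
      intro p hp
      simp only [UN, mem_filter] at hp
      simp only [mem_Icc]
      omega
    have h2 : ∑ n ∈ Icc 1 x, (1 : ℝ) / n = (harmonic x : ℝ) := by
      rw [harmonic_eq_sum_Icc]
      push_cast
      simp only [one_div]
    have h3 := harmonic_le_one_add_log x
    rw [h2] at h1
    have h4 : Real.log x ≤ Real.log N := by linarith [Real.log_nonneg hx1]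
    linarith

end Pool.Agent.Helper19.RD
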